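import Pool.Agent.W511.LowB.Copy

/-!
# A computable field with a low ordering whose ordered field has no computable copy

The starting files contain a computable formally real field none of whose computable copies has a
computable ordering (`MP_5ae901_lc`).  Its orderings form a nonempty `Π⁰₁` class, so by the low
basis theorem of Jockusch and Soare (proved in `Pool/Agent/W511/LowB/Low.lean`) one of them is low.
-/

set_option autoImplicit false

namespace Pool.Agent.Results.MP_1308e3_lc.LowOrderingNoCopy

open Pool.Agent.Helper578.JD

/-- The set of the codes of the pairs `(a, b)` of natural numbers with `e a < e b`. -/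
def orderSet {F : Type} [LinearOrder F] (e : ℕ ≃ F) : Set ℕ :=
  {n | e n.unpair.1 < e n.unpair.2}

/-- `X` is low: the Turing jump of `X` is Turing reducible to the Turing jump of the empty set. -/
def Low (X : Set ℕ) : Prop := TuringReducible (Defs.chi (jump X)) (Defs.chi (jump ∅))

/-- The ordered field `F` has a computable copy: for some computable set `D` of natural numbers and
some bijection `ν` from `F` onto `D`, the addition, the multiplication and the ordering which are
carried over from `F` to `D` by `ν` are (restrictions to `D` of) computable functions and a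
computable relation. So `D` with these operations and this ordering is an ordered field isomorphic
to `F`; nothing is assumed about the computability of `ν`. -/
def HasComputableCopy (F : Type) [Field F] [LinearOrder F] : Prop :=
  ∃ (D : Set ℕ) (ν : F ≃ D), ComputablePred (fun n : ℕ => n ∈ D) ∧
    (∃ add : ℕ → ℕ → ℕ, Computable₂ add ∧ ∀ x y : F, (ν (x + y) : ℕ) = add (ν x) (ν y)) ∧
    (∃ mul : ℕ → ℕ → ℕ, Computable₂ mul ∧ ∀ x y : F, (ν (x * y) : ℕ) = mul (ν x) (ν y)) ∧
    ∃ lt : ℕ → ℕ → Bool, Computable₂ lt ∧ ∀ x y : F, x < y ↔ lt (ν x) (ν y) = true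

/-- Sanity check: the sets which are c.e. relative to `A` are exactly the sets which are many-one
reducible to the jump of `A`. -/
theorem sanity_jump (A S : Set ℕ) : Oracle.REIn A (fun n => n ∈ S) ↔
    ∃ g : ℕ → ℕ, Computable g ∧ ∀ n, n ∈ S ↔ g n ∈ jump A := REIn_iff_jump

/-- Sanity check: `B` is Turing reducible to `A` exactly if `B` and its complement are c.e.
relative to `A`. -/
theorem sanity_turing (A B : Set ℕ) : TuringReducible (Defs.chi B) (Defs.chi A) ↔
    Oracle.REIn A (fun n => n ∈ B) ∧ Oracle.REIn A (fun n => n ∉ B) := Red_iff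

/-- There is an ordered field `F` with a numbering of its elements by the natural numbers such that
addition and multiplication are computable and the ordering is low, but `F` has no computable
copy. -/
theorem result : ∃ (F : Type) (_ : Field F) (_ : LinearOrder F) (_ : IsStrictOrderedRing F)
    (e : ℕ ≃ F),
    Computable₂ (fun a b : ℕ => e.symm (e a + e b)) ∧
    Computable₂ (fun a b : ℕ => e.symm (e a * e b)) ∧
    Low (orderSet e) ∧
    ¬ HasComputableCopy F := by
  obtain ⟨K, ⟨e, hA, hM⟩, hno⟩ := Pool.Agent.W511.LowB.exists_subfield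
  obtain ⟨A, h1, h2⟩ := Pool.Agent.W511.LowB.low_basis
    (Pool.Agent.W511.LowB.bads_re hA hM (e.symm 0))
    ⟨_, Pool.Agent.W511.LowB.bads_of_order e⟩
  obtain ⟨lo, hring, h3⟩ := Pool.Agent.W511.LowB.order_of_bads e A h1
  refine ⟨K, inferInstance, lo, hring, e, hA, hM, ?_, ?_⟩
  · have : @orderSet K lo e = A := h3
    rw [this]
    exact h2
  · rintro ⟨D, ν, hD, ⟨add, ha, ha'⟩, ⟨mul, hm, hm'⟩, ⟨lt, hl, hl'⟩⟩
    exact Pool.Agent.W511.LowB.no_copy (F := K) hno D hD ν add mul lt ha hm hl ha' hm' hl'

end Pool.Agent.Results.MP_1308e3_lc.LowOrderingNoCopy
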